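import Pool.Agent.W_a3c811_h30.NT
import Pool.Agent.W_MP_a3c811_h79.Div

/-! Squarefree characteristic polynomials from Newton above Hodge. -/

noncomputable section

namespace Pool.Agent.H30C

open Polynomial Module Pool.Agent.H30S

universe v w

variable {K : Type v} [Field K] [CharZero K] {U V : Type w} [AddCommGroup U] [Module K U]
  [AddCommGroup V] [Module K V] [FiniteDimensional K U] [FiniteDimensional K V]

omit [FiniteDimensional K V] [AddCommGroup V] [Module K V] in
theorem al_scale (S : Module.End K U) (c : K) (hc : c ≠ 0) :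
    (c • S).charpoly = S.charpoly.scaleRoots c := by
  have : Infinite K := inferInstance
  apply Polynomial.funext
  intro t
  obtain ⟨s, rfl⟩ : ∃ s, t = c * s := ⟨c⁻¹ * t, by rw [← mul_assoc, mul_inv_cancel₀ hc, one_mul]⟩
  have h1 : (S.charpoly.scaleRoots c).eval (c * s) = c ^ S.charpoly.natDegree * S.charpoly.eval s := by
    have := Polynomial.scaleRoots_eval₂_mul (RingHom.id K) s c (p := S.charpoly)
    simpa [eval₂_id] using this
  rw [h1, LinearMap.eval_charpoly, LinearMap.eval_charpoly, LinearMap.charpoly_natDegree]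
  have h2 : algebraMap K (Module.End K U) (c * s) - c • S =
      c • (algebraMap K (Module.End K U) s - S) := by
    rw [smul_sub, map_mul, Algebra.algebraMap_eq_smul_one c, smul_mul_assoc, one_mul]
  rw [h2, LinearMap.det_smul]

/-- a multiple root of a polynomial -/
theorem al_double (f : K[X]) (hf : f ≠ 0) (h : ¬ Squarefree f) {L : Type v} [Field L]
    [Algebra K L] [IsAlgClosed L] :
    ∃ z : L, 2 ≤ (f.map (algebraMap K L)).rootMultiplicity z := by
  classical
  rw [← PerfectField.separable_iff_squarefree] at h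
  by_contra hcon
  push Not at hcon
  apply h
  have hs : (f.map (algebraMap K L)).Splits := IsAlgClosed.splits _
  rw [← Polynomial.nodup_aroots_iff_of_splits hf hs, Multiset.nodup_iff_count_le_one]
  intro z
  rw [Polynomial.aroots, Polynomial.count_roots]
  have := hcon z
  omega

theorem al_inner (p m : ℕ) (hp : p.Prime) (P P' T : ℚ[X]) (hN : AboveOne p m P')
    (hS : DualRoots ((p : ℂ) ^ (2 * m + 1)) P P') (hT : UnitRoots ((p : ℂ) ^ (m + 1)) T P) (S : Module.End K U) (A : Module.End K V)
    (j : U →ₗ[K] V) (hj : Function.Injective j)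
    (h : ∀ x, A (j x) = ((p : K) ^ (m + 1)) • j (S x))
    (hP : A.charpoly = P.map (algebraMap ℚ K))
    (hTS : aeval S (T.map (algebraMap ℚ K)) = 0) {L : Type v} [Field L] [CharZero L]
    [Algebra K L] (z : L) (hz : 2 ≤ (S.charpoly.map (algebraMap K L)).rootMultiplicity z) :
    False := by
  have hpK : (p : K) ^ (m + 1) ≠ 0 := pow_ne_zero _ (by exact_mod_cast hp.ne_zero)
  have : Infinite K := inferInstance
  have hne : S.charpoly ≠ 0 := (LinearMap.charpoly_monic S).ne_zero
  have hne' : S.charpoly.map (algebraMap K L) ≠ 0 :=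
    (Polynomial.map_ne_zero_iff (algebraMap K L).injective).2 hne
  have hroot : (S.charpoly.map (algebraMap K L)).IsRoot z :=
    (Polynomial.rootMultiplicity_pos hne').1 (lt_of_lt_of_le Nat.zero_lt_two hz)
  have hQL : ((algebraMap K L).comp (algebraMap ℚ K)) = algebraMap ℚ L := RingHom.ext_rat _ _
  -- `z` is a root of `T`
  have hzT : aeval z T = 0 := by
    have h2 : Module.End.HasEigenvalue (S.baseChange L) z := by
      rw [Module.End.hasEigenvalue_iff_isRoot_charpoly, LinearMap.charpoly_baseChange]
      exact hroot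
    obtain ⟨x, hx⟩ := h2.exists_hasEigenvector
    have h3 := Module.End.aeval_apply_of_hasEigenvector (p := (T.map (algebraMap ℚ K)).map
      (algebraMap K L)) hx
    have h4 : aeval (S.baseChange L) ((T.map (algebraMap ℚ K)).map (algebraMap K L)) = 0 := by
      rw [Polynomial.aeval_map_algebraMap]
      have h5 := Polynomial.aeval_algHom_apply (Module.End.baseChangeHom K L U) S
        (T.map (algebraMap ℚ K))
      rw [hTS, map_zero] at h5
      exact h5
    rw [h4, LinearMap.zero_apply] at h3
    have h6 := (smul_eq_zero.1 h3.symm).resolve_right hx.2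
    rw [Polynomial.map_map, hQL, Polynomial.eval_map_algebraMap] at h6
    exact h6
  -- multiplicity
  have hdvd := Pool.Agent.H79R.charpoly_dvd_of_inj j hj (((p : K) ^ (m + 1)) • S) A (by
    intro x
    rw [h, LinearMap.smul_apply, map_smul])
  rw [al_scale S _ hpK, hP] at hdvd
  have hdvd2 := Polynomial.map_dvd (algebraMap K L) hdvd
  rw [Polynomial.map_scaleRoots _ _ _ (by
    rw [(LinearMap.charpoly_monic S).leadingCoeff, map_one]; exact one_ne_zero),
    Polynomial.map_map] at hdvd2
  have hPK : P ≠ 0 := by
    rintro rfl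
    rw [Polynomial.map_zero] at hP
    exact (LinearMap.charpoly_monic A).ne_zero hP
  have hPne : P.map ((algebraMap K L).comp (algebraMap ℚ K)) ≠ 0 :=
    (Polynomial.map_ne_zero_iff (RingHom.injective _)).2 hPK
  have h7 := Polynomial.rootMultiplicity_le_rootMultiplicity_of_dvd hPne hdvd2
    (algebraMap K L ((p : K) ^ (m + 1)) * z)
  rw [Polynomial.rootMultiplicity_scaleRoots _ (IsLeftCancelMulZero.mul_left_cancel_of_ne_zero
    ((map_ne_zero_iff _ (algebraMap K L).injective).2 hpK))] at h7
  rw [hQL, map_pow, map_natCast] at h7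
  exact nt_main p m hp P P' T hPK hN hS hT z hzT (hz.trans h7)

theorem al_sqfree (p m : ℕ) (hp : p.Prime) (P P' T : ℚ[X]) (hN : AboveOne p m P')
    (hS : DualRoots ((p : ℂ) ^ (2 * m + 1)) P P') (hT : UnitRoots ((p : ℂ) ^ (m + 1)) T P) (S : Module.End K U) (A : Module.End K V)
    (j : U →ₗ[K] V) (hj : Function.Injective j)
    (h : ∀ x, A (j x) = ((p : K) ^ (m + 1)) • j (S x))
    (hP : A.charpoly = P.map (algebraMap ℚ K))
    (hTS : aeval S (T.map (algebraMap ℚ K)) = 0) : Squarefree S.charpoly := by
  by_contra hcon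
  obtain ⟨z, hz⟩ := al_double S.charpoly (LinearMap.charpoly_monic S).ne_zero hcon
    (L := AlgebraicClosure K)
  have : CharZero (AlgebraicClosure K) := charZero_of_injective_algebraMap
    (algebraMap K (AlgebraicClosure K)).injective
  exact al_inner p m hp P P' T hN hS hT S A j hj h hP hTS z hz

end Pool.Agent.H30C
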