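import Pool.Agent.W_MP_a3c811_h79.Q.AsmD
import Pool.Agent.W_a3c811_h30.Alg

/-! Newton above Hodge implies simple eigenvalues on the transcendental cocycles. -/

noncomputable section

set_option linter.unusedSectionVars false

namespace Pool.Agent.H30C

open Module Polynomial Pool.Agent.WeilH_h6 Pool.Agent.WeilH_h6.VarClass Pool.Agent.H62D
  Pool.Agent.H62A Pool.Agent.H79L Pool.Agent.H62X Pool.Agent.H79E Pool.Agent.H62S
  Pool.Agent.H62S.Strata Pool.Agent.H79Q

universe u v w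

variable {k : Type u} [Field k] {𝒱 : VarClass k} {I : Type} {K : I → Type v} [∀ l, Field (K l)]
  [∀ l, CharZero (K l)] {W : ∀ l, Weil.{u, v, w} 𝒱 (K l)} {X : Strata W}

section one

variable [DecidableEq X.J] (hW : Compatible W) {M : X.Motive} {ε ψ : ∀ l, TEnd (W l) X.Y}
  {c : ℤ → ℚ} (hM : M.Via ε ψ c) {P Q : ℚ[X]} (F : FitX X hW P Q) {l : I}
  {BY : Subring (Module.End (K l) (Tot (W l) X.Y))} (hY : X.YRing l BY)
  (hc : ∃ Z', XCore X l BY hY (ZE X hW P l) Z')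

include hW hM F hY hc

/-- the transcendental cocycles are embedded into the realisation -/
theorem br_inj {x : Tot (W l) X.EY}
    (hx : x ∈ XVt X l (ZE X hW P l) (X.lift l 0 (ε l))) (hd : X.ed l x = 0)
    (hu : M.u l x = 0) : x = 0 := by
  obtain ⟨Z', hc⟩ := hc
  obtain ⟨D, hP⟩ := hY.pol hW
  have hZ := har_strata hY hW F
  obtain ⟨⟨h1, h2, h3⟩, -⟩ := hx
  have h4 := ((rl_of hW hM l).ker x hd).1 hu
  rw [h3] at h4
  obtain ⟨y0, hy0⟩ := h4
  have h5 := prim_at hP.bi h1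
  obtain ⟨y1, hy1, h6⟩ := at_hom hP.bi h5 hy0.symm
  have h7 := Hs.z_at hP hZ hy1
  have h8 := hc.d_zero hP hZ h7 (by omega) (by omega)
  have h9 : ZE X hW P l x = X.ed l (ZE X hW P l y1) := by
    rw [h6]
    exact LinearMap.congr_fun hZ.cd y1
  rw [← h2, h9, h8]

omit F in
/-- Frobenius on the transcendental cocycles -/
theorem br_frob {x : Tot (W l) X.EY} {Z e : Module.End (K l) (Tot (W l) X.EY)}
    (hx : x ∈ XAm X l Z e) (hd : X.ed l x = 0) :
    M.φ l (M.u l x) = ((c (X.n + 1) : ℚ) : K l) • M.u l (X.lift l 0 (ψ l) x) := by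
  obtain ⟨D, hP⟩ := hY.pol hW
  have h5 := prim_at hP.bi hx.1
  have h6 := (rl_of hW hM l).frob _ _ x h5 hd
  rw [h6]
  congr 3
  push_cast
  ring

omit F hM in
/-- the degree -/
theorem br_deg {x : Tot (W l) X.EY} {Z e : Module.End (K l) (Tot (W l) X.EY)}
    (hx : x ∈ XAm X l Z e) (hd : X.ed l x = 0) : M.u l x ∈ M.deg l X.n := by
  obtain ⟨D, hP⟩ := hY.pol hW
  have h5 := prim_at hP.bi hx.1
  have h6 := deg_eq M l 0
  rw [zero_add] at h6
  rw [h6, mem_Dg]
  refine ⟨x, hd, ?_, rfl⟩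
  have h7 := h5.ht
  simpa using h7

end one

end Pool.Agent.H30C
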