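import Mathlib

/-! Definitions for the statement: conditions on rational polynomials. -/

namespace Pool.Agent.H30S

open Polynomial

/-- The polynomial `P` is monic and, for all `k ≥ 1`, the coefficient of `X ^ (deg P - k)` is an
integral multiple of `p ^ (m k - 1)`: the Newton polygon of `P` for the prime number `p` lies above
the line of slope `m` through the point `(0, -1)`. -/
def AboveOne (p m : ℕ) (P : ℚ[X]) : Prop :=
  P.Monic ∧ ∀ j, ∃ a : ℤ, (p : ℚ) * P.coeff j = a * (p : ℚ) ^ (m * (P.natDegree - j))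

/-- The multiplicity of the root `z` of `P` is that of the root `c / z` of `P'`. -/
def DualRoots (c : ℂ) (P P' : ℚ[X]) : Prop :=
  ∀ z : ℂ, z ≠ 0 → (P.map (algebraMap ℚ ℂ)).rootMultiplicity z =
    (P'.map (algebraMap ℚ ℂ)).rootMultiplicity (c / z)

/-- The complex roots `z` of `T` for which `c z` is a multiple root of `P` have absolute value one
and are not roots of unity. -/
def UnitRoots (c : ℂ) (T P : ℚ[X]) : Prop :=
  ∀ z : ℂ, aeval z T = 0 → 2 ≤ (P.map (algebraMap ℚ ℂ)).rootMultiplicity (c * z) →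
    ‖z‖ = 1 ∧ ∀ n : ℕ, 0 < n → z ^ n ≠ 1

end Pool.Agent.H30S
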