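import Pool.Agent.W_MP_a3c811_h79.Q.StR
import Pool.Agent.W_a3c811_h30.StP

/-! Definitions for the statement: Newton above Hodge and the absence of Tate classes. -/

noncomputable section

namespace Pool.Agent.H30S

open Polynomial Pool.Agent.WeilH_h6 Pool.Agent.WeilH_h6.VarClass Pool.Agent.H62A Pool.Agent.H62S
  Pool.Agent.H79S

universe u v w

section linear

variable {K : Type v} [Field K] [CharZero K] {E : Type w} [AddCommGroup E] [Module K E]
  (B : E → E → K) (D D' : E →ₗ[K] E)

/-- `T (S) x = 0` for the vectors `x` of `P` with `ε x = x`, `D x = D' x = 0` and `B (x, z) = 0` for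
all `z` with the property `A`. -/
def KilledOn (ε : E →ₗ[K] E) (A : E → Prop) (S : E →ₗ[K] E) (P : Submodule K E) (T : ℚ[X]) :
    Prop :=
  ∀ x ∈ P, ε x = x → D x = 0 → D' x = 0 → (∀ z, A z → B x z = 0) →
    aeval S (T.map (algebraMap ℚ K)) x = 0

end linear

variable {k : Type u} [Field k] {𝒱 : VarClass k} {I : Type} {K : I → Type v} [∀ l, Field (K l)]
  [∀ l, CharZero (K l)] {W : ∀ l, Weil.{u, v, w} 𝒱 (K l)}

/-- In the theory `l`, where `n = 2 m + 1`: the characteristic polynomial of Frobenius on `V^n` is a
rational polynomial `P`; the Newton polygon of the polynomial `P'` with the roots `p ^ n / z`, where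
`z` runs over the roots of `P`, lies above the line of slope `m` through the point `(0, -1)`; and there
is a rational polynomial `T` with `T (ψ) = 0` on the transcendental cocycles of the primitive part
`(1, 0)` (the primitive cohomology in the middle degree of the double locus) cut out by `ε` such that
the roots `z` of `T` for which `p ^ (m + 1) z` is a multiple root of `P` have absolute value one and
are not roots of unity. -/
def NewtonAbove {X : Strata W} (M : X.Motive) (l : I) (ε ψ : TEnd (W l) X.Y) (p m : ℕ) : Prop :=
  ∃ P P' T : ℚ[X], CharpolyOn (M.φ l) (M.deg l X.n) P ∧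
    DualRoots ((p : ℂ) ^ (2 * m + 1)) P P' ∧ AboveOne p m P' ∧
      KilledOn (pairing (W l) X.Y) (X.res l) (X.gys l) ε (CycClass (W l) X.Y) ψ (X.prim l 1 0) T ∧
        UnitRoots ((p : ℂ) ^ (m + 1)) T P

end Pool.Agent.H30S
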