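import Pool.Agent.W_a3c811_h30.Main
import Pool.Agent.W_a3c811_h30.StN
import Pool.Agent.W_MP_a3c811_h79.Q.AsmE

/-! Independence without weight monodromy for motives of Calabi-Yau type. -/

noncomputable section

namespace Pool.Agent.H30C

open Polynomial Pool.Agent.WeilH_h6 Pool.Agent.WeilH_h6.VarClass Pool.Agent.H62D
  Pool.Agent.H62A Pool.Agent.H62S Pool.Agent.H62S.Strata Pool.Agent.H79Q Pool.Agent.H30S

universe u v w

theorem indepN {k : Type u} [Field k] {𝒱 : VarClass k} {I : Type} {K : I → Type v}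
    [∀ l, Field (K l)] [∀ l, CharZero (K l)] {W : ∀ l, Weil.{u, v, w} 𝒱 (K l)}
    (hW : Compatible W) (X : Strata W) (ε ψ : ∀ l, TEnd (W l) X.Y) (hc : H79S.Cut X ε ψ ψ)
    (G : ∀ l, Set (TEnd (W l) X.Y)) (hG : ∀ l, H79S.CompatSet X l (G l))
    (hK : ∀ l, H79S.Known X l (G l)) (M : X.Motive) (c : ℤ → ℚ) (hM : H79S.CutBy M ε ψ c)
    (hd : ∀ l l', H79S.dimV M l = H79S.dimV M l') (l0 : I) (p m : ℕ) (hp : p.Prime)
    (hcp : c (X.n + 1) = (p : ℚ) ^ (m + 1)) (hN : NewtonAbove M l0 (ε l0) (ψ l0) p m) :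
    M.Independence := by
  classical
  obtain ⟨⟨c1, c2, c3⟩, c4⟩ := hc
  have hε : X.MotCompat ε := ⟨c1, fun l => (c4 l).1.1⟩
  have hψ : X.MotCompat ψ := ⟨c3, fun l => (c4 l).1.2.2⟩
  have hV : M.Via ε ψ c :=
    { proj := fun l => (hM l).1
      frob := fun l w p x hx => (hM l).2 w p x hx
      compat := ⟨hε, hψ⟩
      comm := ⟨fun l => (c4 l).2.2.1, fun l x => (c4 l).2.1 x⟩ }
  have hS : ∀ l i j, H79S.NoSquareZero X l (G l) i j → X.NoSquareZeroAt l (G l) i j :=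
    fun l i j h S hS => h S hS.1 hS.2
  have hKu := (X.toLefschetz hW).kunneth hW
  have : Nonempty I := ⟨l0⟩
  obtain ⟨χ, hχ⟩ := (X.toLefschetz hW).exists_char hW hKu
  obtain ⟨P, Q, F⟩ := hχ.exists_fitting hW
  have hcore := core_of hW F l0 (hG l0) (hK l0).1 (fun i hi => by
    rcases (hK l0).2.1 i hi with h | ⟨h, h'⟩
    · exact Or.inl h
    · exact Or.inr ⟨h, Or.inl (hS l0 2 0 h')⟩)
    (fun i j hi hj _ => Or.inl (hS l0 i j ((hK l0).2.2.1 i j hi hj)))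
  have hG0 : X.CompatibleWith l0 (G l0) := hG l0
  obtain ⟨R, R', T, hR, hRR, hR', hTk, hT⟩ := hN
  obtain ⟨U, hU, h⟩ := simple_of hW hV F (yring_sring hW hG0.com)
    hcore (hK l0).2.2.2 (fun x hx => hTk x hx.1 hx.2.1 hx.2.2.1 hx.2.2.2.1 hx.2.2.2.2) hp hcp
    hT hR hRR hR'
  exact indepR hW X ε ψ ψ ⟨⟨c1, c3, c3⟩, c4⟩ G hG hK M c hM hd l0 ⟨U, hU, h⟩

end Pool.Agent.H30C
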