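import Pool.Agent.W_a3c811_h30.Br

/-! Independence for motives of Calabi-Yau type. -/

noncomputable section

set_option linter.unusedSectionVars false

namespace Pool.Agent.H30C

open Module Polynomial Pool.Agent.WeilH_h6 Pool.Agent.WeilH_h6.VarClass Pool.Agent.H62D
  Pool.Agent.H62A Pool.Agent.H79L Pool.Agent.H62X Pool.Agent.H79E Pool.Agent.H62S
  Pool.Agent.H62S.Strata Pool.Agent.H79Q Pool.Agent.H30S

universe u v w

variable {k : Type u} [Field k] {𝒱 : VarClass k} {I : Type} {K : I → Type v} [∀ l, Field (K l)]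
  [∀ l, CharZero (K l)] {W : ∀ l, Weil.{u, v, w} 𝒱 (K l)} {X : Strata W}

/-- Newton above Hodge implies that the eigenvalues on the transcendental cocycles are simple. -/
theorem simple_of [DecidableEq X.J] (hW : Compatible W) {M : X.Motive} {ε ψ : ∀ l, TEnd (W l) X.Y}
    {c : ℤ → ℚ} (hM : M.Via ε ψ c) {P Q : ℚ[X]} (F : FitX X hW P Q) {l : I}
    {BY : Subring (Module.End (K l) (Tot (W l) X.Y))} (hY : X.YRing l BY)
    (hc : ∃ Z', XCore X l BY hY (ZE X hW P l) Z') (hI : X.IndexAt l)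
    {T : ℚ[X]} (hTk : ∀ x, X.TransKer l (ε l) x → polyAt T (ψ l) x = 0) {p m : ℕ}
    (hp : p.Prime) (hcc : c (X.n + 1) = (p : ℚ) ^ (m + 1)) {R R' : ℚ[X]}
    (hT : UnitRoots ((p : ℂ) ^ (m + 1)) T R)
    (hR : CharpolyOn (M.φ l) (M.deg l X.n) R) (hSD : DualRoots ((p : ℂ) ^ (2 * m + 1)) R R')
    (hNO : AboveOne p m R') : X.SimpleAt l (ε l) (ψ l) := by
  obtain ⟨hst, hR⟩ := hR
  have hψε : X.ComFam ψ ε := fun l x => (hM.comm.1 l x).symm
  have hεi : ∀ l x, X.lift l 0 (ε l) (X.lift l 0 (ε l) x) = X.lift l 0 (ε l) x :=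
    fun l => (rl_of hW hM l).ee
  have hYl := yring_sring (l := l) hW (com_empty (X := X))
  obtain ⟨D0, C⟩ := vc_of hW F hM.compat.1 hεi l hYl hI
  have eψ := ec_lift hW (motCompat_com hM.compat.2 l)
  set U : Submodule (K l) (Tot (W l) X.EY) := XVt X l (ZE X hW P l) (X.lift l 0 (ε l)) ⊓
    LinearMap.ker (X.ed l) with hU
  have hUst : ∀ x ∈ U, X.lift l 0 (ψ l) x ∈ U := by
    rintro x ⟨hx, hx'⟩
    refine ⟨(rs_of hW F hM.compat.1 hM.compat.2 hψε l hYl).vt C hx, ?_⟩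
    have h1 : X.ed l x = 0 := hx'
    change X.ed l (X.lift l 0 (ψ l) x) = 0
    rw [← eψ.ad, h1, map_zero]
  set S : Module.End (K l) U := (X.lift l 0 (ψ l)).restrict hUst with hS
  have hsl : ∀ x : Tot (W l) X.EY, X.slice l 0 (X.lift l 0 (ψ l) x) = ψ l (X.slice l 0 x) :=
    fun x => slice_com hW (motCompat_com hM.compat.2 l) 0 x
  have htr : ∀ x ∈ U, X.TransKer l (ε l) (X.slice l 0 x) := fun x hx =>
    trans_of hW F hM.compat.1 hx.1 hx.2
  have hinj : ∀ x ∈ U, X.slice l 0 x = 0 → x = 0 := by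
    intro x hx h0
    have h2 := ins_slice_eprim hW hx.1.1.1
    rw [← h2, h0, map_zero]
  -- `T` kills `S`
  have hTS : aeval S (T.map (algebraMap ℚ (K l))) = 0 := by
    refine LinearMap.ext fun x => Subtype.ext (hinj _ (Subtype.prop _) ?_)
    have h1 := NumA_aeval ((X.slice l 0) ∘ₗ U.subtype) S (ψ l) (fun x => hsl x.1)
      (T.map (algebraMap ℚ (K l))) x
    have h2 := hTk _ (htr x.1 x.2)
    exact h1.trans h2
  -- the embedding
  have hdeg : ∀ x : U, M.u l x.1 ∈ M.deg l X.n := fun x =>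
    br_deg hW hY hc x.2.1.1 x.2.2
  let j : U →ₗ[K l] M.deg l X.n := LinearMap.codRestrict _ (M.u l ∘ₗ U.subtype) hdeg
  have hj : Function.Injective j := by
    rw [← LinearMap.ker_eq_bot, LinearMap.ker_eq_bot']
    intro x hx
    exact Subtype.ext (br_inj hW hM F hY hc x.2.1 x.2.2 (congrArg Subtype.val hx))
  have hfr : ∀ x, ((M.φ l).restrict hst) (j x) = ((p : K l) ^ (m + 1)) • j (S x) := by
    intro x
    refine Subtype.ext ?_
    have h1 := br_frob hW hM hY hc x.2.1.1 x.2.2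
    rw [hcc] at h1
    push_cast at h1
    exact h1
  have hsq := al_sqfree p m hp R R' T hNO hSD hT S ((M.φ l).restrict hst) j hj hfr hR hTS
  -- transfer to the strata
  set U' : Submodule (K l) (Tot (W l) X.Y) := U.map (X.slice l 0) with hU'
  have hmem : ∀ y, y ∈ U' ↔ X.TransKer l (ε l) y := by
    intro y
    constructor
    · rintro ⟨x, hx, rfl⟩
      exact htr x hx
    · intro hy
      obtain ⟨h1, h2, h3⟩ := of_trans hW F hM.compat.1 hy
      exact ⟨_, ⟨h1, h2⟩, h3⟩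
  have hst' : MapsOn (ψ l) U' U' := by
    rintro _ ⟨x, hx, rfl⟩
    exact ⟨_, hUst x hx, hsl x⟩
  refine ⟨U', hmem, hst', inferInstance, ?_⟩
  let e : U ≃ₗ[K l] U' := LinearEquiv.ofBijective
    (((X.slice l 0) ∘ₗ U.subtype).codRestrict U' fun x => ⟨x.1, x.2, rfl⟩) ⟨by
      rw [← LinearMap.ker_eq_bot, LinearMap.ker_eq_bot']
      intro x hx
      exact Subtype.ext (hinj x.1 x.2 (congrArg Subtype.val hx)), by
      rintro ⟨_, x, hx, rfl⟩
      exact ⟨⟨x, hx⟩, rfl⟩⟩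
  have h5 := charpoly_eq_of_equiv e (φ := S) (φ' := (ψ l).restrict hst') fun x => Subtype.ext
    (hsl x.1)
  rw [← h5]
  exact hsq

end Pool.Agent.H30C
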