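import Pool.Agent.W_a3c811_h30.StP

/-! Kronecker's theorem and Gauss's lemma: a polynomial whose Newton polygon lies above the Hodge
polygon with first Hodge number at most one has only simple roots of transcendental type. -/

noncomputable section

namespace Pool.Agent.H30C

open Polynomial Pool.Agent.H30S

theorem nt_inj : Function.Injective (Polynomial.map (Int.castRingHom ℚ)) :=
  Polynomial.map_injective _ (RingHom.injective_int _)

/-- a monic rational polynomial is a primitive integral polynomial divided by a positive integer -/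
theorem nt_prim (f : ℚ[X]) (hf : f.Monic) :
    ∃ (A : ℤ[X]) (a : ℤ), 0 < a ∧ A.IsPrimitive ∧ A.map (Int.castRingHom ℚ) = C (a : ℚ) * f := by
  obtain ⟨b, hbm, hb⟩ := IsLocalization.integerNormalization_spec (nonZeroDivisors ℤ) f
  set B := IsLocalization.integerNormalization (nonZeroDivisors ℤ) f with hB
  have hb0 : ((b : ℤ) : ℚ) ≠ 0 := by
    have := nonZeroDivisors.ne_zero hbm
    exact_mod_cast this
  have h1 : B.map (Int.castRingHom ℚ) = C ((b : ℤ) : ℚ) * f := by
    have h2 : B.map (algebraMap ℤ ℚ) = _ := hb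
    rw [show (Int.castRingHom ℚ) = algebraMap ℤ ℚ from rfl, h2]
    ext n
    simp
  have h3 : B = C B.content * B.primPart := B.eq_C_content_mul_primPart
  have hBne : B ≠ 0 := by
    intro h
    rw [h, Polynomial.map_zero] at h1
    rcases mul_eq_zero.1 h1.symm with h | h
    · exact hb0 (C_eq_zero.1 h)
    · exact hf.ne_zero h
  have hc : ((B.content : ℤ) : ℚ) ≠ 0 := by
    have : B.content ≠ 0 := by rwa [Ne, Polynomial.content_eq_zero_iff]
    exact_mod_cast this
  have h4 : C ((B.content : ℤ) : ℚ) * B.primPart.map (Int.castRingHom ℚ) = C ((b : ℤ) : ℚ) * f := by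
    rw [← h1]
    conv_rhs => rw [h3]
    rw [Polynomial.map_mul, Polynomial.map_C]
    rfl
  have h5 : B.primPart.map (Int.castRingHom ℚ) =
      C (((B.content : ℤ) : ℚ)⁻¹ * ((b : ℤ) : ℚ)) * f := by
    rw [C_mul, mul_assoc, ← h4, ← mul_assoc, ← C_mul, inv_mul_cancel₀ hc, C_1, one_mul]
  have h6 : ((B.primPart.leadingCoeff : ℤ) : ℚ) = ((B.content : ℤ) : ℚ)⁻¹ * ((b : ℤ) : ℚ) := by
    have h7 := congrArg Polynomial.leadingCoeff h5
    rw [Polynomial.leadingCoeff_mul, Polynomial.leadingCoeff_C, hf.leadingCoeff, mul_one,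
      Polynomial.leadingCoeff_map_of_injective (RingHom.injective_int _)] at h7
    exact h7
  rw [← h6] at h5
  have h8 : B.primPart.leadingCoeff ≠ 0 := by
    rw [Ne, Polynomial.leadingCoeff_eq_zero]
    exact Polynomial.primPart_ne_zero B
  rcases lt_or_gt_of_ne h8 with h9 | h9
  · refine ⟨-B.primPart, -B.primPart.leadingCoeff, by omega, ?_, ?_⟩
    · have h10 := Polynomial.isPrimitive_primPart B
      intro r hr
      exact h10 r ((dvd_neg).1 hr)
    · rw [Polynomial.map_neg, h5]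
      push_cast
      rw [C_neg]
      ring
  · exact ⟨B.primPart, B.primPart.leadingCoeff, h9, Polynomial.isPrimitive_primPart B, h5⟩

/-- Gauss: if `p f f g` is integral with `f`, `g` monic rational and `p` prime then `f` is
integral -/
theorem nt_gauss (p : ℕ) (hp : p.Prime) (f g : ℚ[X]) (hf : f.Monic) (hg : g.Monic) (Q : ℤ[X])
    (hQ : Q.map (Int.castRingHom ℚ) = C (p : ℚ) * (f * f * g)) :
    ∃ A : ℤ[X], A.Monic ∧ A.map (Int.castRingHom ℚ) = f := by
  obtain ⟨A, a, ha, hA, hAf⟩ := nt_prim f hf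
  obtain ⟨B, b, hb, hB, hBg⟩ := nt_prim g hg
  have h1 : C (a * a * b) * Q = C (p : ℤ) * (A * A * B) := by
    apply nt_inj
    rw [Polynomial.map_mul, Polynomial.map_mul, Polynomial.map_mul, Polynomial.map_mul, hQ, hAf,
      hBg, Polynomial.map_C, Polynomial.map_C]
    simp only [eq_intCast, Int.cast_mul, Int.cast_natCast, C_mul]
    ring
  have h2 := congrArg Polynomial.content h1
  rw [Polynomial.content_C_mul, Polynomial.content_C_mul, ((hA.mul hA).mul hB).content_eq_one,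
    mul_one] at h2
  have h3 : a * a ∣ (p : ℤ) := by
    have h4 : a * a * b ∣ (p : ℤ) := by
      have h5 : normalize (a * a * b) ∣ normalize (p : ℤ) := ⟨_, h2.symm⟩
      rwa [normalize_dvd_iff, dvd_normalize_iff] at h5
    exact dvd_trans (Dvd.intro _ rfl) h4
  have h6 : IsUnit a := (Nat.prime_iff_prime_int.1 hp).squarefree a h3
  have h7 : a = 1 := by
    rcases Int.isUnit_iff.1 h6 with h | h
    · exact h
    · omega
  rw [h7] at hAf
  rw [Int.cast_one, C_1, one_mul] at hAf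
  exact ⟨A, Polynomial.monic_of_injective (RingHom.injective_int (Int.castRingHom ℚ))
    (by rw [hAf]; exact hf), hAf⟩

/-- Kronecker -/
theorem nt_kron (w : ℂ) (A : ℤ[X]) (hA : A.Monic) (hw : aeval w A = 0)
    (h : ∀ z : ℂ, aeval z A = 0 → ‖z‖ = 1) : ∃ n : ℕ, 0 < n ∧ w ^ n = 1 := by
  have hi : IsIntegral ℤ w := ⟨A, hA, by rwa [aeval_def] at hw⟩
  have hiQ : IsIntegral ℚ w := hi.tower_top
  let F := IntermediateField.adjoin ℚ {w}
  have : FiniteDimensional ℚ F := IntermediateField.adjoin.finiteDimensional hiQ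
  have : NumberField F := ⟨⟩
  let x : F := ⟨w, IntermediateField.mem_adjoin_simple_self ℚ w⟩
  have hx : IsIntegral ℤ x := by
    rw [← isIntegral_algHom_iff ((Algebra.algHom ℤ F ℂ) : F →ₐ[ℤ] ℂ)
      (algebraMap F ℂ).injective]
    exact hi
  have hxA : aeval x A = 0 := by
    have h1 : algebraMap F ℂ (aeval x A) = 0 := by
      rw [← Polynomial.aeval_algebraMap_apply]
      exact hw
    exact (map_eq_zero_iff _ (algebraMap F ℂ).injective).1 h1
  obtain ⟨n, hn, hn'⟩ := NumberField.Embeddings.pow_eq_one_of_norm_eq_one F ℂ hx (fun φ => by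
    apply h
    have h1 : aeval (φ x) A = φ (aeval x A) := by
      have := Polynomial.hom_eval₂ A (algebraMap ℤ F) φ x
      rw [aeval_def, aeval_def, this]
      congr 1
      exact RingHom.ext_int _ _
    rw [h1, hxA, map_zero])
  refine ⟨n, hn, ?_⟩
  have := congrArg (algebraMap F ℂ) hn'
  rw [map_pow, map_one] at this
  exact this

/-- a double root of a rational polynomial: the square of the minimal polynomial divides it -/
theorem nt_double {L : Type*} [Field L] [CharZero L] (P : ℚ[X]) (hP : P ≠ 0) (x : L)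
    (h : 2 ≤ (P.map (algebraMap ℚ L)).rootMultiplicity x) :
    minpoly ℚ x * minpoly ℚ x ∣ P := by
  have hPL : P.map (algebraMap ℚ L) ≠ 0 := by
    rwa [Ne, Polynomial.map_eq_zero_iff (algebraMap ℚ L).injective]
  have h0 : aeval x P = 0 := by
    have : (P.map (algebraMap ℚ L)).IsRoot x :=
      (Polynomial.rootMultiplicity_pos hPL).1 (by omega)
    rwa [IsRoot, eval_map_algebraMap] at this
  have hi : IsIntegral ℚ x := (isAlgebraic_iff_isIntegral (K := ℚ)).1 ⟨P, hP, h0⟩
  have hirr := minpoly.irreducible hi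
  have h1 : aeval x (derivative P) = 0 := by
    have h2 : ((P.map (algebraMap ℚ L)).derivative).IsRoot x := by
      by_contra hcon
      have h3 := (Polynomial.one_lt_rootMultiplicity_iff_isRoot hPL).1 (by omega :
        1 < (P.map (algebraMap ℚ L)).rootMultiplicity x)
      exact hcon h3.2
    rwa [Polynomial.derivative_map, IsRoot, eval_map_algebraMap] at h2
  obtain ⟨R, hR⟩ := minpoly.dvd ℚ x h0
  have h4 : minpoly ℚ x ∣ derivative (minpoly ℚ x) * R := by
    have h5 := minpoly.dvd ℚ x h1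
    rw [hR, derivative_mul] at h5
    exact (dvd_add_left (Dvd.intro _ rfl)).1 h5
  have h6 : minpoly ℚ x ∣ R :=
    hirr.separable.dvd_of_dvd_mul_left h4
  obtain ⟨S, hS⟩ := h6
  exact ⟨S, by rw [hR, hS, mul_assoc]⟩

/-- conjugates of a multiple -/
theorem nt_conj {L M : Type*} [Field L] [CharZero L] [Field M] [CharZero M] (c : ℚ) (f : ℚ[X])
    (z : L) (w : M) (hw : aeval w (minpoly ℚ z) = 0) (h : aeval ((c : L) * z) f = 0) :
    aeval ((c : M) * w) f = 0 := by
  have h1 : aeval z (f.comp (C c * X)) = 0 := by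
    rw [aeval_comp, map_mul, aeval_C, aeval_X]
    simpa using h
  have h2 := minpoly.dvd ℚ z h1
  obtain ⟨g, hg⟩ := h2
  have h3 : aeval w (f.comp (C c * X)) = 0 := by rw [hg, map_mul, hw, zero_mul]
  rw [aeval_comp, map_mul, aeval_C, aeval_X] at h3
  simpa using h3

theorem nt_scale (p m : ℕ) (hp : p.Prime) (P : ℚ[X]) (h : AboveOne p m P) :
    ∃ Q : ℤ[X], Q.map (Int.castRingHom ℚ) = C (p : ℚ) * P.scaleRoots (((p : ℚ) ^ m)⁻¹) := by
  have hp0 : (p : ℚ) ≠ 0 := by exact_mod_cast hp.ne_zero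
  choose a ha using h.2
  refine ⟨∑ j ∈ Finset.range (P.natDegree + 1), C (a j) * X ^ j, ?_⟩
  ext j
  rw [Polynomial.coeff_map, Polynomial.finsetSum_coeff, coeff_C_mul, coeff_scaleRoots]
  simp only [coeff_C_mul, coeff_X_pow, mul_ite, mul_one, mul_zero]
  rw [Finset.sum_ite_eq (Finset.range (P.natDegree + 1)) j]
  split_ifs with hj
  · rw [← mul_assoc, ha j]
    have : ((p : ℚ) ^ (m * (P.natDegree - j))) ≠ 0 := pow_ne_zero _ hp0
    rw [inv_pow, ← pow_mul, mul_assoc, mul_inv_cancel₀ this, mul_one]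
    rfl
  · rw [Finset.mem_range, not_lt] at hj
    rw [coeff_eq_zero_of_natDegree_lt (by omega), zero_mul, mul_zero, map_zero]

/-- Newton above Hodge: `p ^ (m + 1) z` is at most a simple root of `P`, for the roots `z` of
`T`. -/
theorem nt_main (p m : ℕ) (hp : p.Prime) (P P' T : ℚ[X]) (hP0 : P ≠ 0)
    (hN : AboveOne p m P') (hS : DualRoots ((p : ℂ) ^ (2 * m + 1)) P P')
    (hT : UnitRoots ((p : ℂ) ^ (m + 1)) T P) {L : Type*} [Field L] [CharZero L] (z : L)
    (hz : aeval z T = 0)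
    (h : 2 ≤ (P.map (algebraMap ℚ L)).rootMultiplicity ((p : L) ^ (m + 1) * z)) : False := by
  have hp0 : (p : ℚ) ≠ 0 := by exact_mod_cast hp.ne_zero
  have hpC : (p : ℂ) ≠ 0 := by exact_mod_cast hp.ne_zero
  have hP'0 : P' ≠ 0 := hN.1.ne_zero
  have hPC : P.map (algebraMap ℚ ℂ) ≠ 0 := by
    rwa [Ne, Polynomial.map_eq_zero_iff (algebraMap ℚ ℂ).injective]
  have hzP : aeval ((p : L) ^ (m + 1) * z) P = 0 := by
    have h3 : (P.map (algebraMap ℚ L)).IsRoot ((p : L) ^ (m + 1) * z) := by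
      refine (Polynomial.rootMultiplicity_pos ?_).1 (lt_of_lt_of_le Nat.zero_lt_two h)
      exact (Polynomial.map_ne_zero_iff (algebraMap ℚ L).injective).2 hP0
    rwa [IsRoot, eval_map_algebraMap] at h3
  have hzi : IsIntegral ℚ z := by
    have h3 : IsIntegral ℚ ((p : L) ^ (m + 1) * z) :=
      (isAlgebraic_iff_isIntegral (K := ℚ)).1 ⟨P, hP0, hzP⟩
    have h4 : z = algebraMap ℚ L (((p : ℚ) ^ (m + 1))⁻¹) * ((p : L) ^ (m + 1) * z) := by
      have h5 : (p : L) ^ (m + 1) ≠ 0 := pow_ne_zero _ (by exact_mod_cast hp.ne_zero)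
      simp only [map_inv₀, map_pow, map_natCast]
      rw [← mul_assoc, inv_mul_cancel₀ h5, one_mul]
    rw [h4]
    exact isIntegral_algebraMap.mul h3
  -- a complex conjugate of `z`
  obtain ⟨w, hw⟩ : ∃ w : ℂ, aeval w (minpoly ℚ z) = 0 :=
    IsAlgClosed.exists_aeval_eq_zero ℂ (minpoly ℚ z) (minpoly.degree_pos hzi).ne'
  -- `p ^ (m + 1) y` is a double root for all conjugates `y` of `z`
  have hd := nt_double P hP0 _ h
  have hdbl : ∀ y : ℂ, aeval y (minpoly ℚ z) = 0 →
      2 ≤ (P.map (algebraMap ℚ ℂ)).rootMultiplicity ((p : ℂ) ^ (m + 1) * y) := by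
    intro y hy
    have h1 : aeval ((p : ℂ) ^ (m + 1) * y) (minpoly ℚ ((p : L) ^ (m + 1) * z)) = 0 := by
      have h2 := nt_conj (L := L) (M := ℂ) ((p : ℚ) ^ (m + 1))
        (minpoly ℚ ((p : L) ^ (m + 1) * z)) z y hy (by
          have := minpoly.aeval ℚ ((p : L) ^ (m + 1) * z)
          push_cast
          exact this)
      push_cast at h2
      exact h2
    rw [Polynomial.le_rootMultiplicity_iff hPC, pow_two]
    have h3 : X - C ((p : ℂ) ^ (m + 1) * y) ∣
        (minpoly ℚ ((p : L) ^ (m + 1) * z)).map (algebraMap ℚ ℂ) := by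
      rw [dvd_iff_isRoot, IsRoot, eval_map_algebraMap]
      exact h1
    have h4 := Polynomial.map_dvd (algebraMap ℚ ℂ) hd
    rw [Polynomial.map_mul] at h4
    exact (mul_dvd_mul h3 h3).trans h4
  have hall : ∀ y : ℂ, aeval y (minpoly ℚ z) = 0 → ‖y‖ = 1 ∧ ∀ n : ℕ, 0 < n → y ^ n ≠ 1 := by
    intro y hy
    refine hT y ?_ (hdbl y hy)
    obtain ⟨g, hg⟩ := minpoly.dvd ℚ z hz
    rw [hg, map_mul, hy, zero_mul]
  have hw1 := (hall w hw).1
  have hw0 : w ≠ 0 := by
    intro h0
    rw [h0, norm_zero] at hw1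
    exact zero_ne_one hw1
  have hm := hdbl w hw
  -- duality
  rw [hS _ (mul_ne_zero (pow_ne_zero _ hpC) hw0)] at hm
  have hcw : (p : ℂ) ^ (2 * m + 1) / ((p : ℂ) ^ (m + 1) * w) = ((p ^ m : ℕ) : ℂ) * w⁻¹ := by
    push_cast
    have h5 : (p : ℂ) ^ (2 * m + 1) = (p : ℂ) ^ (m + 1) * (p : ℂ) ^ m := by
      rw [← pow_add]
      congr 1
      omega
    rw [h5]
    field_simp
  rw [hcw] at hm
  have hvz : aeval w⁻¹ (minpoly ℚ z) = 0 := by
    have h5 : w⁻¹ = (starRingEnd ℂ) w := Complex.inv_eq_conj hw1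
    rw [h5]
    have h6 : aeval ((starRingEnd ℂ) w) (minpoly ℚ z) =
        (starRingEnd ℂ) (aeval w (minpoly ℚ z)) := by
      rw [aeval_def, aeval_def, Polynomial.hom_eval₂]
      congr 1
      exact RingHom.ext_rat _ _
    rw [h6, hw, map_zero]
  set v := w⁻¹ with hv
  set r : ℕ := p ^ m with hr
  have hr0 : (r : ℚ) ≠ 0 := by
    rw [hr]
    push_cast
    exact pow_ne_zero _ hp0
  have hrC : (r : ℂ) ≠ 0 := by
    rw [hr]
    push_cast
    exact pow_ne_zero _ hpC
  have hvi : IsIntegral ℚ v :=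
    (isAlgebraic_iff_isIntegral (K := ℚ)).1 ⟨minpoly ℚ z, minpoly.ne_zero hzi, hvz⟩
  obtain ⟨R, hR⟩ := nt_double P' hP'0 _ hm
  set κ := minpoly ℚ ((r : ℂ) * v) with hκ
  have hpvi : IsIntegral ℚ ((r : ℂ) * v) :=
    IsIntegral.mul (isIntegral_algebraMap (x := (r : ℚ))) hvi |> fun h => by simpa using h
  have hκm : κ.Monic := minpoly.monic hpvi
  have hRm : R.Monic := by
    have h7 := hN.1
    rw [hR] at h7
    exact (hκm.mul hκm).of_mul_monic_left h7
  obtain ⟨Q, hQ⟩ := nt_scale p m hp P' hN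
  have hrp : ((p : ℚ) ^ m)⁻¹ = (r : ℚ)⁻¹ := by
    rw [hr]
    push_cast
    rfl
  rw [hrp] at hQ
  have h8 : P'.scaleRoots ((r : ℚ)⁻¹) = κ.scaleRoots ((r : ℚ)⁻¹) * κ.scaleRoots ((r : ℚ)⁻¹) *
      R.scaleRoots ((r : ℚ)⁻¹) := by
    rw [hR, Polynomial.mul_scaleRoots_of_noZeroDivisors,
      Polynomial.mul_scaleRoots_of_noZeroDivisors]
  rw [h8] at hQ
  obtain ⟨A, hAm, hA⟩ := nt_gauss p hp _ _ ((monic_scaleRoots_iff _).2 hκm)
    ((monic_scaleRoots_iff _).2 hRm) Q hQ
  have hroot : ∀ u : ℂ, aeval u A = 0 ↔ aeval ((r : ℂ) * u) κ = 0 := by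
    intro u
    have h9 : aeval u A = aeval u (κ.scaleRoots ((r : ℚ)⁻¹)) := by
      rw [← hA, aeval_def, aeval_def, eval₂_map]
      congr 1
    rw [h9]
    have h10 : κ.scaleRoots ((r : ℚ)⁻¹) = C (((r : ℚ)⁻¹) ^ κ.natDegree) * κ.comp (C (r : ℚ) * X) := by
      ext j
      rw [coeff_scaleRoots, coeff_C_mul, comp_C_mul_X_coeff]
      by_cases hj : j ≤ κ.natDegree
      · have h11 : ((r : ℚ)⁻¹) ^ κ.natDegree = ((r : ℚ)⁻¹) ^ (κ.natDegree - j) * ((r : ℚ)⁻¹) ^ j := by
          rw [← pow_add]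
          congr 1
          omega
        rw [h11, inv_pow, inv_pow]
        field_simp
      · rw [coeff_eq_zero_of_natDegree_lt (by omega)]
        simp
    rw [h10, map_mul, aeval_C, aeval_comp, map_mul, aeval_C, aeval_X]
    have h12 : (algebraMap ℚ ℂ) (((r : ℚ)⁻¹) ^ κ.natDegree) ≠ 0 := by
      rw [map_ne_zero_iff _ (algebraMap ℚ ℂ).injective]
      exact pow_ne_zero _ (inv_ne_zero hr0)
    rw [mul_eq_zero, or_iff_right h12]
    simp
  obtain ⟨n, hn, hn'⟩ := nt_kron v A hAm ((hroot v).2 (minpoly.aeval ℚ _)) (by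
    intro u hu
    have h13 := (hroot u).1 hu
    refine (hall u ?_).1
    have h14 := nt_conj (L := ℂ) (M := ℂ) ((r : ℚ)⁻¹) (minpoly ℚ z) ((r : ℂ) * v)
      ((r : ℂ) * u) h13 (by
        push_cast
        rw [← mul_assoc, inv_mul_cancel₀ hrC, one_mul]
        exact hvz)
    push_cast at h14
    rwa [← mul_assoc, inv_mul_cancel₀ hrC, one_mul] at h14)
  exact (hall v hvz).2 n hn hn'

end Pool.Agent.H30C
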